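import Mathlib
import Pool.Agent.Lib.Pf179e6.Gen
import Pool.Agent.Lib.Pf179e6.Spec
import Pool.Agent.Lib.Pf179e6.TopC

/-!
# The strong Lefschetz property in degree one for all complete intersections of uniform degree

Let `K` be a field of characteristic zero and `f_1, .., f_n` a regular sequence of forms of the
same degree `d` in `K[x_1, .., x_n]`, `I = (f_1, .., f_n)`, `s = n (d - 1)` (the socle degree of
`A = K[x]/I`).  There is a linear form `ℓ` such that `ℓ^k : A_i → A_{i+k}` has maximal rank for all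
`i`, `k` with `i ≤ 1` or `i + k ≥ s - 1`; `ℓ^k : A_1 → A_{k+1}` is injective for `k ≤ s - 2`.
-/

namespace Pool.Agent.Results.MP_f179e6_ag.DegreeOne

open MvPolynomial Pool.Agent.Lib.Pf179e6

theorem inj_le {K : Type*} [Field K] {n : ℕ} {I : Ideal (MvPolynomial (Fin n) K)}
    {a : Fin n → K} {k₀ k : ℕ} (hk : k ≤ k₀)
    (h : ∀ v : Fin n → K, lin a ^ k₀ * lin v ∈ I → v = 0)
    {p : MvPolynomial (Fin n) K} (hp : p.IsHomogeneous 1) (hpI : lin a ^ k * p ∈ I) : p ∈ I := by
  obtain ⟨v, rfl⟩ := exists_lin hp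
  have h1 : lin a ^ k₀ * lin v ∈ I := by
    have e : lin a ^ k₀ * lin v = lin a ^ (k₀ - k) * (lin a ^ k * lin v) := by
      rw [← mul_assoc, ← pow_add]
      congr 2
      omega
    rw [e]
    exact Ideal.mul_mem_left _ _ hpI
  have h2 := h v h1
  have h3 : lin v = 0 := by
    rw [h2, lin]
    simp
  rw [h3]
  exact I.zero_mem

theorem result : ∀ (K : Type*) [Field K] [CharZero K] (n d : ℕ), 1 ≤ n → 1 ≤ d →
    ∀ f : Fin n → MvPolynomial (Fin n) K, (∀ i, (f i).IsHomogeneous d) →
    RingTheory.Sequence.IsRegular (MvPolynomial (Fin n) K) (List.ofFn f) →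
    ∃ ℓ : MvPolynomial (Fin n) K, ℓ.IsHomogeneous 1 ∧
      ∀ i k : ℕ, 1 ≤ k → (i ≤ 1 ∨ n * (d - 1) ≤ i + k + 1) →
        ((∀ p : MvPolynomial (Fin n) K, p.IsHomogeneous i →
            ℓ ^ k * p ∈ Ideal.span (Set.range f) → p ∈ Ideal.span (Set.range f)) ∨
         (∀ q : MvPolynomial (Fin n) K, q.IsHomogeneous (i + k) →
            ∃ p : MvPolynomial (Fin n) K, p.IsHomogeneous i ∧
              q - ℓ ^ k * p ∈ Ideal.span (Set.range f))) := by
  intro K _ _ n d hn hd f hf hreg
  have hI : Ideal.ofList (List.ofFn f) = Ideal.span (Set.range f) := by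
    rw [Ideal.ofList]
    congr 1
    ext x
    rw [Set.mem_setOf_eq, List.mem_ofFn, Set.mem_range]
  have hdeg : ∀ r ∈ List.ofFn f, r.IsHomogeneous d := by
    intro r hr
    obtain ⟨i, rfl⟩ := (List.mem_ofFn' f r).1 hr
    exact hf i
  have hinf : Infinite K := CharZero.infinite K
  have hCI : CI d (List.ofFn f) := ⟨List.length_ofFn, hdeg, hreg.toIsWeaklyRegular⟩
  -- the specialized linear form
  have hsp : ∀ Q : MvPolynomial (Fin n) K, Q ≠ 0 → ∃ a : Fin n → K, eval a Q ≠ 0 ∧
      (2 ≤ n * (d - 1) → ∀ v : Fin n → K, lin a ^ (n * (d - 1) - 2) * lin v ∈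
        Ideal.ofList (List.ofFn f) → v = 0) := by
    intro Q hQ
    by_cases hs : 2 ≤ n * (d - 1)
    · have hd2 : 2 ≤ d := by
        by_contra h
        have h1 : d - 1 = 0 := by omega
        rw [h1, mul_zero] at hs
        omega
      obtain ⟨a, ha, h⟩ := specialize (List.ofFn f) (n * (d - 1) - 2) Q hQ
        (fun v hv => generic hd2 (List.ofFn f) hdeg hreg.toIsWeaklyRegular _ (by omega) v hv)
      exact ⟨a, ha, fun _ => h⟩
    · by_contra h
      push Not at h
      apply hQ
      apply MvPolynomial.funext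
      intro a
      rw [map_zero]
      by_contra ha
      obtain ⟨h2, -⟩ := h a ha
      exact hs h2
  rw [← hI]
  obtain ⟨Q, hQ, hQ2⟩ := hCI.exists_Q hd
  obtain ⟨a, ha1, ha⟩ := hsp Q hQ
  have hs := hQ2 a ha1
  refine ⟨lin a, lin_hom a, fun i k hk hik => ?_⟩
  have hpow : ∀ m, m ≤ n * (d - 1) → lin a ^ m ∉ Ideal.ofList (List.ofFn f) := by
    intro m hm h
    apply hs
    have e : n * (d - 1) = (n * (d - 1) - m) + m := by omega
    rw [e, pow_add]
    exact Ideal.mul_mem_left _ _ h
  rcases lt_trichotomy (i + k) (n * (d - 1)) with h | h | h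
  · -- `i + k < s`
    rcases Nat.lt_or_ge i 2 with hi | hi
    · left
      intro p hp hpI
      rcases Nat.lt_or_ge i 1 with hi0 | hi1
      · have hi' : i = 0 := by omega
        subst hi'
        have h0 : p = C (coeff 0 p) := by
          have h1 : p.totalDegree = 0 := (totalDegree_zero_iff_isHomogeneous (Fin n)).2 hp
          exact totalDegree_eq_zero_iff_eq_C.1 h1
        by_contra hne
        obtain ⟨c, hpc⟩ : ∃ c : K, p = C c := ⟨_, h0⟩
        have hc : c ≠ 0 := by
          intro hc
          apply hne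
          rw [hpc, hc, map_zero]
          exact Ideal.zero_mem _
        apply hpow k (by omega)
        have e : lin a ^ k = C c⁻¹ * (lin a ^ k * p) := by
          rw [hpc, mul_left_comm, ← map_mul, inv_mul_cancel₀ hc, map_one, mul_one]
        rw [e]
        exact Ideal.mul_mem_left _ _ hpI
      · have hi' : i = 1 := by omega
        subst hi'
        exact inj_le (k₀ := n * (d - 1) - 2) (by omega) (ha (by omega)) hp hpI
    · -- `i + k = s - 1`
      right
      intro q hq
      have hd2 : 2 ≤ d := by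
        by_contra h1
        have h2 : d - 1 = 0 := by omega
        rw [h2, mul_zero] at h
        omega
      have e : i + k = n * (d - 1) - 1 := by omega
      rw [e] at hq
      obtain ⟨v, hv⟩ := hCI.sub_top_surj hd2 (by omega) a (ha (by omega)) hq
      refine ⟨lin a ^ (i - 1) * lin v, ?_, ?_⟩
      · have h1 := ((lin_hom a).pow (i - 1)).mul (lin_hom v)
        have e1 : 1 * (i - 1) + 1 = i := by omega
        rwa [e1] at h1
      · rw [← mul_assoc, ← pow_add]
        have e1 : k + (i - 1) = n * (d - 1) - 2 := by omega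
        rw [e1]
        exact hv
  · -- `i + k = s`
    right
    intro q hq
    rw [h] at hq
    obtain ⟨m, hm, hmI, hm1⟩ := hCI.top_one hd
    obtain ⟨c, hc⟩ := hm1 q hq
    have hl : (lin a ^ (n * (d - 1))).IsHomogeneous (n * (d - 1)) := by
      have h1 := (lin_hom a).pow (n * (d - 1))
      rwa [one_mul] at h1
    obtain ⟨c', hc'⟩ := hm1 _ hl
    have hne : c' ≠ 0 := by
      intro h0
      apply hs
      rw [h0, map_zero, zero_mul, sub_zero] at hc'
      exact hc'
    refine ⟨C (c / c') * lin a ^ i, ?_, ?_⟩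
    · have h1 := (isHomogeneous_C (Fin n) (c / c')).mul ((lin_hom a).pow i)
      have e1 : 0 + 1 * i = i := by omega
      rwa [e1] at h1
    · have e1 : q - lin a ^ k * (C (c / c') * lin a ^ i)
          = (q - C c * m) - C (c / c') * (lin a ^ (n * (d - 1)) - C c' * m) := by
        have e2 : (C c : MvPolynomial (Fin n) K) = C (c / c') * C c' := by
          rw [← map_mul, div_mul_cancel₀ _ hne]
        rw [e2, ← h, pow_add]
        ring
      rw [e1]
      exact Ideal.sub_mem _ hc (Ideal.mul_mem_left _ _ hc')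
  · -- `i + k > s`
    right
    intro q hq
    refine ⟨0, isHomogeneous_zero _ _ _, ?_⟩
    rw [mul_zero, sub_zero]
    exact hCI.top_zero hd h hq

end Pool.Agent.Results.MP_f179e6_ag.DegreeOne
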