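import Mathlib
import Pool.Agent.Lib.Pf179L.MainL
import Pool.Agent.Lib.Pf179L.Cnt

/-!
# The strong Lefschetz property in low degrees for all complete intersections of uniform degree

Let `K` be a field of characteristic zero and `f_1, .., f_n` a regular sequence of forms of the
same degree `d ≥ 2` in `K[x_1, .., x_n]`, `I = (f_1, .., f_n)`, `A = K[x]/I`, `s = n (d - 1)` (the
socle degree), `a_i = dim A_i` (the number of the exponent vectors of degree `i` with entries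
`< d`).  Let `M : ℕ → ℕ` be any function with `M σ ≤ σ + 1` for `σ < d` and
`M σ ≤ M (σ - 1) + M ⌈σ / 2⌉` for `σ ≥ d`.

There is a linear form `ℓ` such that `ℓ^k : A_i → A_{i+k}` is injective and
`ℓ^k : A_{s-i-k} → A_{s-i}` is surjective whenever `i + k ≤ s` and `a_i < M (s + 1 - (i + k))`.
In particular this holds whenever `C (n + i - 1, i) < 2^(p^2) (d - 1)^p d` and
`i + k + 4^p (d - 1) ≤ s + 1` for some `p`.
-/

namespace Pool.Agent.Results.MP_f179e6_ag.LowDegrees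

open MvPolynomial Pool.Agent.Lib.Pf179e6 Pool.Agent.Lib.Pf179L

theorem le_MM_of_rec {d : ℕ} (hd : 2 ≤ d) (M : ℕ → ℕ) (h1 : ∀ σ, σ < d → M σ ≤ σ + 1)
    (h2 : ∀ σ, d ≤ σ → M σ ≤ M (σ - 1) + M ((σ + 1) / 2)) (σ : ℕ) : M σ ≤ MM d σ := by
  induction σ using Nat.strong_induction_on with
  | _ σ ih =>
    rcases Nat.lt_or_ge σ d with h | h
    · rw [MM_low h]
      exact h1 σ h
    · obtain ⟨τ, rfl⟩ : ∃ τ, σ = τ + 1 := ⟨σ - 1, by omega⟩
      rw [MM_rec hd h]
      have h3 := h2 (τ + 1) h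
      rw [Nat.add_sub_cancel] at h3
      exact h3.trans (Nat.add_le_add (ih τ (by omega)) (ih _ (by omega)))

theorem result : ∀ (K : Type*) [Field K] [CharZero K] (n d : ℕ), 1 ≤ n → 2 ≤ d →
    ∀ f : Fin n → MvPolynomial (Fin n) K, (∀ i, (f i).IsHomogeneous d) →
    RingTheory.Sequence.IsRegular (MvPolynomial (Fin n) K) (List.ofFn f) →
    ∃ ℓ : MvPolynomial (Fin n) K, ℓ.IsHomogeneous 1 ∧
      ∀ i k : ℕ, i + k ≤ n * (d - 1) →
        ((∃ M : ℕ → ℕ, (∀ σ, σ < d → M σ ≤ σ + 1) ∧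
            (∀ σ, d ≤ σ → M σ ≤ M (σ - 1) + M ((σ + 1) / 2)) ∧
            Nat.card {a : Fin n → ℕ // ∑ j, a j = i ∧ ∀ j, a j < d} <
              M (n * (d - 1) + 1 - (i + k))) ∨
         (∃ p : ℕ, i + k + 4 ^ p * (d - 1) ≤ n * (d - 1) + 1 ∧
            (n + i - 1).choose i < 2 ^ (p ^ 2) * (d - 1) ^ p * d)) →
        (∀ p : MvPolynomial (Fin n) K, p.IsHomogeneous i →
            ℓ ^ k * p ∈ Ideal.span (Set.range f) → p ∈ Ideal.span (Set.range f)) ∧
        (∀ q : MvPolynomial (Fin n) K, q.IsHomogeneous (n * (d - 1) - i) →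
            ∃ p : MvPolynomial (Fin n) K, p.IsHomogeneous (n * (d - 1) - i - k) ∧
              q - ℓ ^ k * p ∈ Ideal.span (Set.range f)) := by
  intro K _ _ n d hn hd f hf hreg
  have hI : Ideal.ofList (List.ofFn f) = Ideal.span (Set.range f) := by
    rw [Ideal.ofList]
    congr 1
    ext x
    rw [Set.mem_ofPred_eq, List.mem_ofFn, Set.mem_range]
  have hdeg : ∀ r ∈ List.ofFn f, r.IsHomogeneous d := by
    intro r hr
    obtain ⟨i, rfl⟩ := (List.mem_ofFn' f r).1 hr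
    exact hf i
  have hCI : CI d (List.ofFn f) := ⟨List.length_ofFn, hdeg, hreg.toIsWeaklyRegular⟩
  rw [← hI]
  obtain ⟨l, hl, h⟩ := exists_lin_all hd hCI
    (fun i k => i + k ≤ n * (d - 1) ∧ bx n d n i < MM d (n * (d - 1) + 1 - (i + k)))
    (fun i k h => h.1) (fun i k h v hv hkv => gen_inj hd hCI h.1 h.2 v hv hkv)
  refine ⟨l, hl, fun i k hik hor => h i k ⟨hik, ?_⟩⟩
  rcases hor with ⟨M, h1, h2, h3⟩ | ⟨p, h1, h2⟩
  · rw [card_eq_bx] at h3
    exact h3.trans_le (le_MM_of_rec hd M h1 h2 _)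
  · calc bx n d n i ≤ (n + i - 1).choose i := bx_le_choose hn d i
      _ < 2 ^ (p ^ 2) * (d - 1) ^ p * d := h2
      _ ≤ MM d (4 ^ p * (d - 1)) := MM_growth hd p
      _ ≤ MM d (n * (d - 1) + 1 - (i + k)) := MM_mono hd (by omega)

end Pool.Agent.Results.MP_f179e6_ag.LowDegrees
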