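import Mathlib
import Pool.Agent.Lib.Pf179L.MainL
import Pool.Agent.Lib.Pf179L.Cnt
import Pool.Agent.Lib.Pf179L.GenInj1

/-!
# Lefschetz properties up to twice the degree for all complete intersections of uniform degree

Let `K` be a field of characteristic zero and `f_1, .., f_n` (`n ≥ 2`) a regular sequence of forms
of the same degree `d ≥ 2` in `K[x_1, .., x_n]`, `I = (f_1, .., f_n)`, `A = K[x]/I`,
`s = n (d - 1)`, `a_i = dim A_i`, which is the number of the exponent vectors of degree `i` with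
entries `< d`.  There is a linear form `ℓ` such that `ℓ^k : A_i → A_{i+k}` is injective and
`ℓ^k : A_{s-i-k} → A_{s-i}` is surjective whenever `i + k ≤ s` and `a_i < d^(n-2) (2 d - (i + k))`.

For `n = 6`, `d = 2`, `k = 1` the condition holds for `i = 0, 1, 2` (`1 < 48`, `6 < 32`,
`15 < 16`, see `six`), so every complete intersection of six quadrics has the weak Lefschetz
property.
-/

namespace Pool.Agent.Results.MP_f179e6_ag.TwiceDegree

open MvPolynomial Pool.Agent.Lib.Pf179e6 Pool.Agent.Lib.Pf179L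

theorem result : ∀ (K : Type*) [Field K] [CharZero K] (n d : ℕ), 2 ≤ n → 2 ≤ d →
    ∀ f : Fin n → MvPolynomial (Fin n) K, (∀ i, (f i).IsHomogeneous d) →
    RingTheory.Sequence.IsRegular (MvPolynomial (Fin n) K) (List.ofFn f) →
    ∃ ℓ : MvPolynomial (Fin n) K, ℓ.IsHomogeneous 1 ∧
      ∀ i k : ℕ, i + k ≤ n * (d - 1) →
        Nat.card {a : Fin n → ℕ // ∑ j, a j = i ∧ ∀ j, a j < d} < d ^ (n - 2) * (2 * d - (i + k)) →
        (∀ p : MvPolynomial (Fin n) K, p.IsHomogeneous i →
            ℓ ^ k * p ∈ Ideal.span (Set.range f) → p ∈ Ideal.span (Set.range f)) ∧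
        (∀ q : MvPolynomial (Fin n) K, q.IsHomogeneous (n * (d - 1) - i) →
            ∃ p : MvPolynomial (Fin n) K, p.IsHomogeneous (n * (d - 1) - i - k) ∧
              q - ℓ ^ k * p ∈ Ideal.span (Set.range f)) := by
  intro K _ _ n d hn hd f hf hreg
  have hI : Ideal.ofList (List.ofFn f) = Ideal.span (Set.range f) := by
    rw [Ideal.ofList]
    congr 1
    ext x
    rw [Set.mem_ofPred_eq, List.mem_ofFn, Set.mem_range]
  have hdeg : ∀ r ∈ List.ofFn f, r.IsHomogeneous d := by
    intro r hr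
    obtain ⟨i, rfl⟩ := (List.mem_ofFn' f r).1 hr
    exact hf i
  have hCI : CI d (List.ofFn f) := ⟨List.length_ofFn, hdeg, hreg.toIsWeaklyRegular⟩
  rw [← hI]
  obtain ⟨l, hl, h⟩ := exists_lin_all hd hCI
    (fun i k => i + k ≤ n * (d - 1) ∧ bx n d n i < d ^ (n - 2) * (2 * d - (i + k)))
    (fun i k h => h.1) (fun i k h v hv hkv => gen_inj1 hn (by omega) hCI h.2 v hv hkv)
  refine ⟨l, hl, fun i k hik hM => h i k ⟨hik, ?_⟩⟩
  rwa [card_eq_bx] at hM

/-- the numbers for six quadrics -/
theorem six : ∀ i, i ≤ 2 → Nat.card {a : Fin 6 → ℕ // ∑ j, a j = i ∧ ∀ j, a j < 2} <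
    2 ^ (6 - 2) * (2 * 2 - (i + 1)) := by
  intro i hi
  rw [card_eq_bx, bx_eq_filter]
  interval_cases i <;> decide

/-- every complete intersection of six quadrics has the weak Lefschetz property -/
theorem wlp_six (K : Type*) [Field K] [CharZero K] (f : Fin 6 → MvPolynomial (Fin 6) K)
    (hf : ∀ i, (f i).IsHomogeneous 2)
    (hreg : RingTheory.Sequence.IsRegular (MvPolynomial (Fin 6) K) (List.ofFn f)) :
    ∃ ℓ : MvPolynomial (Fin 6) K, ℓ.IsHomogeneous 1 ∧
      ∀ i : ℕ,
        (∀ p : MvPolynomial (Fin 6) K, p.IsHomogeneous i →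
            ℓ * p ∈ Ideal.span (Set.range f) → p ∈ Ideal.span (Set.range f)) ∨
        (∀ q : MvPolynomial (Fin 6) K, q.IsHomogeneous (i + 1) →
            ∃ p : MvPolynomial (Fin 6) K, p.IsHomogeneous i ∧
              q - ℓ * p ∈ Ideal.span (Set.range f)) := by
  obtain ⟨l, hl, h⟩ := result K 6 2 (by norm_num) le_rfl f hf hreg
  refine ⟨l, hl, fun i => ?_⟩
  rcases Nat.lt_or_ge i 3 with hi | hi
  · left
    have h1 := (h i 1 (by omega) (six i (by omega))).1
    rwa [pow_one] at h1
  · right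
    intro q hq
    rcases Nat.lt_or_ge i 6 with hi6 | hi6
    · obtain ⟨p, hp, hpq⟩ := (h (5 - i) 1 (by omega) (six (5 - i) (by omega))).2 q
        (by
          have e : 6 * (2 - 1) - (5 - i) = i + 1 := by omega
          rwa [e])
      refine ⟨p, ?_, ?_⟩
      · have e : 6 * (2 - 1) - (5 - i) - 1 = i := by omega
        rwa [e] at hp
      · rwa [pow_one] at hpq
    · refine ⟨0, isHomogeneous_zero _ _ _, ?_⟩
      rw [mul_zero, sub_zero]
      have hI : Ideal.ofList (List.ofFn f) = Ideal.span (Set.range f) := by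
        rw [Ideal.ofList]
        congr 1
        ext x
        rw [Set.mem_ofPred_eq, List.mem_ofFn, Set.mem_range]
      have hdeg : ∀ r ∈ List.ofFn f, r.IsHomogeneous 2 := by
        intro r hr
        obtain ⟨i, rfl⟩ := (List.mem_ofFn' f r).1 hr
        exact hf i
      have hCI : CI 2 (List.ofFn f) := ⟨List.length_ofFn, hdeg, hreg.toIsWeaklyRegular⟩
      rw [← hI]
      exact hCI.top_zero (by norm_num) (t := i + 1) (by omega) hq

end Pool.Agent.Results.MP_f179e6_ag.TwiceDegree
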